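import Pool.Agent.Helper98_ASE.AsmS
import Pool.Agent.Helper44_ASE.FMB
import Pool.Agent.Helper3_ASE.CXV
import Pool.Agent.Helper65_ASE.SLE
import Pool.Agent.Helper95_ASE.CN3
import Pool.Agent.Helper79_ASE.X3S
import Pool.Agent.Helper81_ASE.X3R
import Pool.Agent.Helper47_ASE.X2R
import Pool.Agent.Helper47_ASE.HXY
import Pool.Agent.Helper55_ASE.HYC
import Pool.Agent.Helper81_ASE.HYE
import Pool.Agent.Helper94_ASE.CN2
import Pool.Agent.Helper55_ASE.HYF
import Pool.Agent.Helper20_ASE.HKF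
import Pool.Agent.Helper79_ASE.FRI
import Pool.Agent.Helper63_ASE.MBS
import Pool.Agent.Helper48_ASE.LT2
import Pool.Agent.Helper61_ASE.LET
import Pool.Agent.Helper61_ASE.LFM
import Pool.Agent.Helper81_ASE.XEM
import Pool.Agent.Helper3_ASE.ETV
import Pool.Agent.Helper86_ASE.FVA
import Pool.Agent.Helper13_ASE.WTA
import Pool.Agent.Helper82_ASE.TYA
import Pool.Agent.Helper33_ASE.BRV
import Pool.Agent.Helper18_ASE.FWA
import Pool.Agent.Helper94_ASE.FWB
import Pool.Agent.Helper13_ASE.FWD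
import Pool.Agent.Helper47_ASE.FT3
import Pool.Agent.Helper84_ASE.GDH
import Pool.Agent.Helper94_ASE.DAV
import Pool.Agent.Helper1_ASE.DVS
import Pool.Agent.Helper59_ASE.TS1
import Pool.Agent.Helper60_ASE.TS2
import Pool.Agent.Helper56_ASE.TS3
import Pool.Agent.Helper60_ASE.TS4
import Pool.Agent.Helper30_ASE.TS5
import Pool.Agent.Helper71_ASE.FIE
import Pool.Agent.Helper62_ASE.PPC
import Pool.Agent.Helper66_ASE.RTS
import Pool.Agent.Helper30_ASE.HZA
import Pool.Agent.Helper74_ASE.RXE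
import Pool.Agent.Helper91_ASE.HTE
import Pool.Agent.Helper74_ASE.HSG
import Pool.Agent.Helper45_ASE.ETM
import Pool.Agent.Helper91_ASE.ETC
import Pool.Agent.Helper44_ASE.ETG
import Pool.Agent.Helper31_ASE.ETQ
import Pool.Agent.Helper59_ASE.ETS
import Pool.Agent.Helper66_ASE.HSE
import Pool.Agent.Helper56_ASE.GXA
import Pool.Agent.Helper72_ASE.GID
import Pool.Agent.Helper72_ASE.GSC
import Pool.Agent.Helper33_ASE.GDP
import Pool.Agent.Helper83_ASE.GDI
import Pool.Agent.Helper18_ASE.KE1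
import Pool.Agent.Helper17_ASE.KE2
import Pool.Agent.Helper96_ASE.KLP
import Pool.Agent.Helper46_ASE.KRE
import Pool.Agent.Helper20_ASE.EIV
import Pool.Agent.Helper82_ASE.HEX
import Pool.Agent.Helper65_ASE.CSB
import Pool.Agent.Helper44_ASE.MQC
import Pool.Agent.Helper16_ASE.MQA
import Pool.Agent.Helper97_ASE.MQB
import Pool.Agent.Helper48_ASE.HMX
import Pool.Agent.Helper81_ASE.CPX
import Pool.Agent.Helper13_ASE.CME

/-!
# Squad ASE: the statements of blocks W, R, L, closed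
-/

noncomputable section

namespace Pool.Agent.PP.SE

open Pool.Agent.PP Pool.Agent.PP.K9 Pool.Agent.PP.T3 Pool.Agent.PP.SO Pool.Agent.PP.SD

/-! ## Block W -/

theorem fmb_ : FmbStmt := H44.fmb czb_ acb_ prb_
theorem cxv_ : CxvStmt := H3.cxv K9.wbo_ H43A.nsd
theorem cn3_ : Cn3Stmt := H95.cn3
theorem x3s_ : X3sStmt := H79.x3s czb_
theorem hxy_ : HxyStmt := H47.hxy
theorem hyc_ : HycStmt := H55.hyc czb_
theorem cn2_ : Cn2Stmt := H94.cn2
theorem fri_ : FriStmt := H79.fri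
theorem mbs_ : MbsStmt := H63.mbs SO.mbi_
theorem lt2_ : Lt2Stmt := H48.lt2 mbs_ fri_
theorem let_ : LetStmt := H61.let_
theorem lfm_ : LfmStmt := H61.lfm prb_
theorem xem_ : XemStmt := H81.xem T3.smg_ czb_
theorem fva_ : FvaStmt := H86.fva
theorem tya_ : TyaStmt := H82.tya
theorem brv_ : BrvStmt := H33.brv tya_ fva_
theorem fwb_ : FwbStmt := H94.fwb SO.mbi_ xem_
theorem ft3_ : Ft3Stmt := H47.ft3
theorem gdh_ : GdhStmt := H84.gdh SO.mbi_
theorem dvs_ : DvsStmt := H1.dvs prb_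
theorem ppc_ : PpcStmt := H62P.ppc

/-! ## Block R -/

theorem rte_ : RteStmt := H66.rte_
theorem hza_ : HzaStmt := H30.hza T5.deg_ SO.prj_ K9.H69.fmg KF.H25.idm K9.wbo_
theorem rxe_ : RxeStmt := H74.rxe
theorem hte_ : HteStmt := H91.hte hza_ rxe_ TB.nzf_ T5.pr5_ T5.deg_ T5.inq_ SO.homr_ SO.hixe_
  SO.hlnk_ K9.wbo_
theorem hsg_ : HsgStmt := H74.hsg hte_ SO.hrat_ SO.hfro_ SO.hfpr_ SO.hfce_ SO.hixe_
theorem etm_ : EtmStmt := H45.etm
theorem etc_ : EtcStmt := H91.etc etm_ hte_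
theorem etg_ : EtgStmt := H44.etg K9.wbo_ SO.hlnk_ T3.prm_ SO.rtc_
theorem etq_ : EtqStmt := H31Q.etq etm_ etg_ SO.hlnk_
theorem ets_ : EtsStmt := H59.ets etc_ etg_ SO.hrat_ SO.homr_ SO.hixe_
theorem hse_ : HseStmt := H66.hse hsg_ etq_ ets_ SO.hl12_ SO.hixe_
theorem etv_ : EtvStmt := H3.etv etc_

/-! ## Block L -/

theorem gxa_ : GxaStmt := H56.gxa
theorem gid_ : GidStmt := H72.gid SO.lt1_ gxa_
theorem gsc_ : GscStmt := H72.gsc SO.lav_
theorem gdp_ : GdpStmt := H33.gdp SO.lcm_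
theorem gdi_ : GdiStmt := H83.gdi gdp_ SO.ltb_
theorem ke1_ : Ke1Stmt := H18.ke1 SO.rsl_
theorem klp_ : KlpStmt := H96.klp prb_ mpb_
theorem eiv_ : EivStmt := H20.eiv acb_ czb_ fmb_ mpb_
theorem hex_ : HexStmt := H82.hex eiv_ hse_
theorem csb_ : CsbStmt := H65.csb
theorem mqc_ : MqcStmt := H44.mqc prb_
theorem mqa_ : MqaStmt := H16.mqa prb_ csb_
theorem mqb_ : MqbStmt := H97.mqb prb_ csb_
theorem hmx_ : HmxStmt := H48.hmx

end Pool.Agent.PP.SE
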