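import Pool.Agent.ASE.Stmts3
import Pool.Agent.Helper91_ASD.Fib
import Pool.Agent.Helper33_ASO.NSV

/-!
# Squad ASE, row X2C: `X12` in terms of `HX` (helper80)
-/

open scoped BigOperators

set_option autoImplicit false

noncomputable section

namespace Pool.Agent.PP.SE.H98X

open Pool.Agent.Helper51_AWC Pool.Agent.Helper79_WRA Pool.Agent.PP Pool.Agent.PP.KF
open Pool.Agent.PP.K9 Pool.Agent.PP.K9.H97 Pool.Agent.PP.H75 Pool.Agent.PP.T3 Pool.Agent.PP.SO
open Pool.Agent.PP.SD Pool.Agent.PP.SD.H91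
open Pool.Agent.PP.SO.H82 (memC conj_of_mem mem_of_conj bh_cj)

attribute [local instance] Ideal.Quotient.field

section blk

variable {V₀ G : Type} [CommGroup V₀] [Group G] [Finite G] {n : ℕ} {ℓ : ℕ}
  {M : Ideal (integralClosure ℤ ℂ)} [M.IsMaximal] {E₀ : Subgroup (MulAut V₀)}
  {B : Bk (FF M) V₀ G} {L : Set (SO.SS n V₀)} {u : G}

/-- an element of the centre of the block is fixed by the lift of the block -/
theorem cz_mul (B : Bk (FF M) V₀ G) (W : Subgroup V₀) {a : G → ℂ} (ha : Cz B W a) :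
    mulF a (bh B W) = a := by
  classical
  have hfin : Fintype (B.C W) := Fintype.ofFinite _
  apply eq_of_res (N := B.C W) (mulF_supp (B.C W) ha.sup
    (fun x hx => SO.H3.bh_supp B W hx)) ha.sup
  rw [mulF_res (B.C W) _ ha.sup]
  have hcl : ∀ (x y : B.C W), (fun t : B.C W => a t) (y * x * y⁻¹) =
      (fun t : B.C W => a t) x := fun x y => ha.cls y y.2 x
  have hbcl : ∀ (x y : B.C W), (fun t : B.C W => bh B W t) (y * x * y⁻¹) =
      (fun t : B.C W => bh B W t) x := by
    intro x y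
    show bh B W ((y * x * y⁻¹ : B.C W) : G) = bh B W (x : G)
    rw [SO.H33.bh_W, SO.H33.bh_W, K9.H25.eh_cl]
  have hm : mulF (fun t : B.C W => a t) (fun t : B.C W => bh B W t) =
      fun y => ∑ h, (fun t : B.C W => a t) h * (fun t : B.C W => bh B W t) (h⁻¹ * y) := by
    funext y
    unfold mulF
    rw [finsum_eq_sum_of_fintype]
  rw [hm, ← sub_eq_zero]
  apply irr_complete
  · intro g h
    rw [Pi.sub_apply, Pi.sub_apply]
    congr 1
    · rw [← Equiv.sum_comp (MulAut.conj h).toEquiv]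
      refine Finset.sum_congr rfl fun t _ => ?_
      have e1 : (MulAut.conj h).toEquiv t = h * t * h⁻¹ := rfl
      rw [e1]
      congr 1
      · exact hcl t h
      · have e2 : (h * t * h⁻¹)⁻¹ * (h * g * h⁻¹) = h * (t⁻¹ * g) * h⁻¹ := by group
        rw [e2]
        exact hbcl (t⁻¹ * g) h
    · exact hcl g h
  · intro χ' hχ'
    set χ : G → ℂ := H75.ext0 (B.C W) χ' with hχ
    have hχs : ∀ x, x ∉ B.C W → χ x = 0 := H75.ext0_supp _ _
    have hχr : (fun t : B.C W => χ t) = χ' := funext (H75.ext0_apply _ _)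
    have hχi : (fun t : B.C W => χ t) ∈ Irr (B.C W) := by rw [hχr]; exact hχ'
    have hne : χ' 1 ≠ 0 := irr_one_ne hχ'
    have hcv : SO.cv a χ = H50.om (fun t : B.C W => a t) χ' := by
      rw [← hχr]
      unfold SO.cv H50.om
      rw [H75.sum_sub (B.C W) _ (fun x hx => by rw [ha.sup x hx, zero_mul]),
        finsum_eq_sum_of_fintype]
      rfl
    have hmul := H50.om_mul (a := fun t : B.C W => a t)
      (b := fun t : B.C W => bh B W t) hbcl hχ'
    have hom : ∀ a : B.C W → ℂ, ∑ t, a t * χ' t = H50.om a χ' * χ' 1 := by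
      intro a
      unfold H50.om
      rw [div_mul_cancel₀ _ hne]
    have hbval : H50.om (fun t : B.C W => bh B W t) χ' =
        if χ' ∈ IrrE M (fun t : B.C W => B.b W t) then 1 else 0 := by
      have h2 : (fun t : B.C W => bh B W t) = eh M (fun t : B.C W => B.b W t) :=
        funext fun s => SO.H33.bh_W B W s
      rw [h2]
      unfold H50.om
      rw [H25.eh_chv M _ hχ']
      split_ifs
      · exact div_self hne
      · exact zero_div _
    have hval : H50.om (fun t : B.C W => a t) χ' *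
        H50.om (fun t : B.C W => bh B W t) χ' = H50.om (fun t : B.C W => a t) χ' := by
      rw [hbval]
      split_ifs with hin
      · rw [mul_one]
      · rw [← hcv, ha.blk χ hχs hχi (fun h => hin (hχr ▸ h.2)), zero_mul]
    simp only [Pi.sub_apply, sub_mul, Finset.sum_sub_distrib]
    rw [sub_eq_zero]
    have e1 : ∑ x : B.C W, (∑ h : B.C W, a (h : G) *
          bh B W ((h⁻¹ * x : B.C W) : G)) * χ' x =
        H50.om (fun t : B.C W => a t) χ' * H50.om (fun t : B.C W => bh B W t) χ' *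
          χ' 1 := by
      rw [← hmul, ← hom]
    have e2 : ∑ x : B.C W, a (x : G) * χ' x =
        H50.om (fun t : B.C W => a t) χ' * χ' 1 := by
      rw [← hom]
    rw [e1, e2, hval]

open Classical in
/-- `X12` as a sum over the `u` -/
theorem star' [Fintype G] (B : Bk (FF M) V₀ G) (m : ℕ) (a b : Subgroup V₀ → G → ℂ)
    (L : Set (SO.SS n V₀)) :
    (Nat.card (B.C (pL L)) : ℂ) * Nat.card (B.C (qL L)) * X12 B m a b L =
      ∑ u : G, if u ∈ UU B.i L then
        ∑ κ, mulF (a (pL L)) (H75.cj u (b (qL L))) κ * Rk m B.i L κ else 0 := by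
  have hn1 : (Nat.card (B.C (pL L)) : ℂ) ≠ 0 := by
    exact_mod_cast (Nat.card_pos (α := B.C (pL L))).ne'
  have hn2 : (Nat.card (B.C (qL L)) : ℂ) ≠ 0 := by
    exact_mod_cast (Nat.card_pos (α := B.C (qL L))).ne'
  obtain ⟨f, hf⟩ : ∃ f, f = a (pL L) := ⟨_, rfl⟩
  obtain ⟨k, hk⟩ : ∃ k, k = b (qL L) := ⟨_, rfl⟩
  have h1 : (Nat.card (B.C (pL L)) : ℂ) * Nat.card (B.C (qL L)) * X12 B m a b L =
      ∑ g, f g * (∑ h, k h * Th m B.i L g h) := by
    unfold X12
    rw [mul_inv_cancel_left₀ (mul_ne_zero hn1 hn2), finsum_eq_sum_of_fintype,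
      Fintype.sum_prod_type, ← hf, ← hk]
    refine Finset.sum_congr rfl fun s _ => ?_
    rw [Finset.mul_sum]
    refine Finset.sum_congr rfl fun t _ => ?_
    rw [← mul_assoc]
    congr 1
    exact count m B.i L _ _
  rw [h1, ← hf, ← hk]
  -- exchange of the sums
  unfold Th
  have h2 : ∀ g, f g * (∑ h, k h *
      ∑ u : G, (if u ∈ UU B.i L then Rk m B.i L (g * (u * h * u⁻¹)) else 0)) =
      ∑ u : G, if u ∈ UU B.i L then
        ∑ h, f g * (k h * Rk m B.i L (g * (u * h * u⁻¹))) else 0 := by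
    intro g
    have h3 : ∀ h, k h *
        ∑ u : G, (if u ∈ UU B.i L then Rk m B.i L (g * (u * h * u⁻¹)) else 0) =
        ∑ u : G, if u ∈ UU B.i L then k h * Rk m B.i L (g * (u * h * u⁻¹)) else 0 := by
      intro h
      rw [Finset.mul_sum]
      refine Finset.sum_congr rfl fun u _ => ?_
      rw [mul_ite, mul_zero]
    rw [Finset.sum_congr rfl fun h _ => h3 h, Finset.sum_comm, Finset.mul_sum]
    refine Finset.sum_congr rfl fun u _ => ?_
    by_cases hu : u ∈ UU B.i L
    · simp only [if_pos hu]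
      rw [Finset.mul_sum]
    · simp only [if_neg hu, Finset.sum_const_zero, mul_zero]
  rw [Finset.sum_congr rfl fun g _ => h2 g, Finset.sum_comm]
  refine Finset.sum_congr rfl fun u _ => ?_
  by_cases hu : u ∈ UU B.i L
  · simp only [if_pos hu]
    have h4 : ∀ κ, mulF f (H75.cj u k) κ * Rk m B.i L κ =
        ∑ g, f g * (k (u⁻¹ * (g⁻¹ * κ) * u) * Rk m B.i L κ) := by
      intro κ
      unfold mulF
      rw [finsum_eq_sum_of_fintype, Finset.sum_mul]
      refine Finset.sum_congr rfl fun g _ => ?_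
      rw [mul_assoc]
      rfl
    have h5 : ∑ κ, mulF f (H75.cj u k) κ * Rk m B.i L κ =
        ∑ g, ∑ κ, f g * (k (u⁻¹ * (g⁻¹ * κ) * u) * Rk m B.i L κ) := by
      rw [Finset.sum_congr rfl fun κ _ => h4 κ]
      exact Finset.sum_comm
    rw [h5]
    refine Finset.sum_congr rfl fun g _ => ?_
    let e : G ≃ G :=
      { toFun := fun h => g * (u * h * u⁻¹)
        invFun := fun κ => u⁻¹ * (g⁻¹ * κ) * u
        left_inv := fun h => by group
        right_inv := fun κ => by group }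
    rw [← e.sum_comp (fun κ => f g * (k (u⁻¹ * (g⁻¹ * κ) * u) * Rk m B.i L κ))]
    refine Finset.sum_congr rfl fun h _ => ?_
    have e1 : e h = g * (u * h * u⁻¹) := rfl
    have e2 : u⁻¹ * (g⁻¹ * (g * (u * h * u⁻¹))) * u = h := by group
    rw [e1, e2]
  · simp only [if_neg hu, Finset.sum_const_zero]

omit [Finite G] in
/-- the conditions for `g ∈ C(pL)` -/
theorem cn_iff' {m : ℕ} {g x y : G} (hg : g ∈ B.C (pL L)) :
    cn m B.i L g x y ↔ ∀ s ∈ L,
      ((g ^ m) ^ (s.2.1 : ℕ) * B.i s.2.2.1) * x = x * ((g ^ m) ^ (s.2.1 : ℕ) * B.i s.2.2.1) ∧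
      y⁻¹ * ((g ^ m) ^ (s.2.1 : ℕ) * B.i s.2.2.1) * y =
        (g ^ m) ^ (s.2.1 : ℕ) * B.i s.2.2.1 * (x ^ m) ^ (s.1 : ℕ) := by
  refine forall₂_congr fun s hs => ?_
  have hKP' : Commute ((g ^ m) ^ (s.2.1 : ℕ)) (B.i s.2.2.1) := by
    refine Commute.pow_left (Commute.pow_left ?_ m) _
    have h1 := comm_p B L hg s hs
    exact mul_inv_eq_iff_eq_mul.1 h1
  obtain ⟨K, hK⟩ : ∃ K, K = (g ^ m) ^ (s.2.1 : ℕ) := ⟨_, rfl⟩
  obtain ⟨P, hP⟩ : ∃ P, P = B.i s.2.2.1 := ⟨_, rfl⟩
  obtain ⟨X, hX⟩ : ∃ X, X = (x ^ m) ^ (s.1 : ℕ) := ⟨_, rfl⟩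
  have hKP : K * P = P * K := by rw [hK, hP]; exact hKP'.eq
  rw [← hK, ← hP, ← hX]
  have h1 : K⁻¹ * x * K = P * x * P⁻¹ ↔ K * P * x = x * (K * P) := by
    constructor
    · intro h
      have h2 : x * K = K * (P * x * P⁻¹) := by rw [← h]; group
      have h3 : x * K * P = K * P * x := by rw [h2]; group
      rw [← h3, mul_assoc]
    · intro h
      have h2 : x * K * P = K * P * x := by rw [h, mul_assoc]
      have h3 : x * K = K * P * x * P⁻¹ := by rw [← h2, mul_inv_cancel_right]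
      rw [mul_assoc, h3]
      group
  have h2 : K⁻¹ * (y * X) * K = P * y * P⁻¹ ↔ y * X * (K * P) = K * P * y := by
    constructor
    · intro h
      have h2 : y * X * K = K * (P * y * P⁻¹) := by rw [← h]; group
      have h3 : y * X * K * P = K * P * y := by rw [h2]; group
      rw [← h3, mul_assoc (y * X)]
    · intro h
      have h2 : y * X * K * P = K * P * y := by rw [← h, mul_assoc (y * X)]
      have h3 : y * X * K = K * P * y * P⁻¹ := by rw [← h2, mul_inv_cancel_right]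
      rw [mul_assoc K⁻¹, h3]
      group
  rw [h1, h2]
  refine and_congr_right fun hx => ?_
  have hc : Commute (K * P) X := by
    rw [hX]
    exact (Commute.pow_right (Commute.pow_right hx m) _)
  constructor
  · intro h
    have h3 : y⁻¹ * (K * P) * y = X * (K * P) := by
      rw [mul_assoc, ← h]
      group
    rw [h3, hc.eq]
  · intro h
    have h3 : K * P * y = y * (y⁻¹ * (K * P) * y) := by group
    rw [h3, h, hc.eq]
    group

/-- `HX` with the numbers `Rk` -/
theorem hx_eq [Fintype G] (B : Bk (FF M) V₀ G) (m : ℕ) (L : Set (SO.SS n V₀)) {f : G → ℂ}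
    (hf : ∀ g, g ∉ B.C (pL L) → f g = 0) :
    (Nat.card (B.C (pL L)) : ℂ) * HX B m (pL L) f L = ∑ g, f g * Rk m B.i L g := by
  have hn1 : (Nat.card (B.C (pL L)) : ℂ) ≠ 0 := by
    exact_mod_cast (Nat.card_pos (α := B.C (pL L))).ne'
  unfold HX
  rw [mul_inv_cancel_left₀ hn1, finsum_eq_sum_of_fintype]
  refine Finset.sum_congr rfl fun g _ => ?_
  by_cases hg : g ∈ B.C (pL L)
  · unfold Rk
    congr 3
    ext w
    exact and_congr_right fun _ => (cn_iff' hg).symm
  · rw [hf g hg, zero_mul, zero_mul]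

/-- the term of `u` vanishes if `cj u (b q) ≠ b p` -/
theorem term_zero' (hB : Sb ℓ M E₀ B) (hu : u ∈ UU B.i L)
    (hb : H75.cj u (B.b (qL L)) ≠ B.b (pL L)) {f k : G → ℂ} (hf : Cz B (pL L) f)
    (hk : Cz B (qL L) k) : mulF f (H75.cj u k) = 0 := by
  have hC : ∀ x, x ∈ B.C (pL L) ↔ u⁻¹ * x * u ∈ B.C (qL L) := UU_C hu
  have h1 : mulF f (bh B (pL L)) = f := cz_mul B (pL L) hf
  have h2 : mulF k (bh B (qL L)) = k := cz_mul B (qL L) hk
  have h3 : H75.cj u k = mulF (H75.cj u (bh B (qL L))) (H75.cj u k) := by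
    conv_lhs => rw [← h2]
    rw [cj_mulF]
    refine mulF_comm_of (K := B.C (pL L)) ?_ ?_
    · intro x hx
      change k (u⁻¹ * x * u) = 0
      exact hk.sup _ fun h => hx ((hC x).2 h)
    · intro z hz
      funext x
      change bh B (qL L) (u⁻¹ * (z⁻¹ * x * z) * u) = bh B (qL L) (u⁻¹ * x * u)
      have hz' : (u⁻¹ * z * u)⁻¹ ∈ B.C (qL L) := (B.C (qL L)).inv_mem ((hC z).1 hz)
      have h4 := H10L.bh_conj B (qL L) _ hz' (u⁻¹ * x * u)
      rw [← h4]
      congr 1
      group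
  have h5 : mulF (bh B (pL L)) (H75.cj u (bh B (qL L))) = 0 := orth hB hC hb
  rw [h3]
  conv_lhs => rw [← h1]
  apply ma_injective
  rw [ma_mul, ma_mul, ma_mul, ma_zero]
  have h6 := congrArg ma h5
  rw [ma_mul, ma_zero] at h6
  rw [mul_assoc, ← mul_assoc (ma (bh B (pL L))), h6, zero_mul, mul_zero]

/-- if `EL` is empty all terms vanish -/
theorem term_empty' [Fact ℓ.Prime] (fud : SD.FudStmt)
    (hM : (ℓ : integralClosure ℤ ℂ) ∈ M) [Finite V₀] (hF : Fq ℓ V₀ E₀)
    (hB : Sb ℓ M E₀ B) (hu : u ∈ UU B.i L) (hE : EL E₀ L = ∅) {a k : G → ℂ}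
    (ha : Cz B (pL L) a) (hk : Cz B (qL L) k) :
    mulF a (H75.cj u k) = 0 := by
  classical
  refine term_zero' hB hu (fun hb => ?_) ha hk
  have hf : ∀ v ∈ qL L, ∃ w ∈ pL L, u * B.i v * u⁻¹ = B.i w := UU_fwd hu
  obtain ⟨f, hf'⟩ : ∃ f : V₀ → V₀, ∀ v ∈ qL L, f v ∈ pL L ∧ u * B.i v * u⁻¹ = B.i (f v) := by
    refine ⟨fun v => if h : v ∈ qL L then (hf v h).choose else 1, fun v hv => ?_⟩
    simp only [dif_pos hv]
    exact (hf v hv).choose_spec
  obtain ⟨σ, hσ, hfσ, -⟩ := fud ℓ M hM V₀ G E₀ hF B hB (pL L) (qL L) u f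
    (fun v hv => (hf' v hv).2) (fun v hv => (hf' v hv).1) (fun w hw => by
      obtain ⟨v, hv, e⟩ := UU_bwd hu w hw
      refine ⟨v, hv, ?_⟩
      apply hB.inj
      rw [← (hf' v hv).2, e]) hb
  have hmem : σ ∈ EL E₀ L := by
    refine ⟨hσ, fun s hs => ?_⟩
    have hq : s.2.2.2 ∈ qL L := Subgroup.subset_closure ⟨s, hs, rfl⟩
    rw [← hfσ _ hq]
    apply hB.inj
    rw [← (hf' _ hq).2, mem_UU.1 hu s hs]
  rw [hE] at hmem
  exact hmem

/-- the number of the elements of `EL` -/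
theorem el_card {σ₀ : MulAut V₀} (h₀ : σ₀ ∈ EL E₀ L) :
    (EL E₀ L).ncard = nS E₀ (pL L) := by
  unfold nS
  rw [← Nat.card_coe_set_eq]
  refine Nat.card_congr
    { toFun := fun σ => ⟨σ.1 * σ₀⁻¹, E₀.mul_mem σ.2.1 (E₀.inv_mem h₀.1), ?_⟩
      invFun := fun τ => ⟨τ.1 * σ₀, E₀.mul_mem τ.2.1 h₀.1, ?_⟩
      left_inv := fun σ => Subtype.ext (inv_mul_cancel_right _ _)
      right_inv := fun τ => Subtype.ext (mul_inv_cancel_right _ _) }
  · have hle : pL L ≤ (σ.1 * σ₀⁻¹ : MulAut V₀).toMonoidHom.eqLocus (MonoidHom.id V₀) := by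
      unfold pL
      rw [Subgroup.closure_le]
      rintro p ⟨s, hs, rfl⟩
      change (σ.1 * σ₀⁻¹ : MulAut V₀) s.2.2.1 = s.2.2.1
      rw [MulAut.mul_apply]
      conv_lhs => rw [← h₀.2 s hs]
      rw [MulAut.inv_apply_self, σ.2.2 s hs]
    intro w hw
    exact hle hw
  · intro s hs
    rw [MulAut.mul_apply, h₀.2 s hs]
    exact τ.2.2 _ (Subgroup.subset_closure ⟨s, hs, rfl⟩)

end blk

/-- X2C -/
theorem x2c (acb : AcbStmt) (fud : SD.FudStmt) : X2cStmt := by
  intro ℓ _ M _ hM hℓ V₀ G _ _ _ _ E₀ hF B hB n m hPE L a b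
  classical
  have := Fintype.ofFinite G
  have hn1 : (Nat.card (B.C (pL L)) : ℂ) ≠ 0 := by
    exact_mod_cast (Nat.card_pos (α := B.C (pL L))).ne'
  have hn2 : (Nat.card (B.C (qL L)) : ℂ) ≠ 0 := by
    exact_mod_cast (Nat.card_pos (α := B.C (qL L))).ne'
  have hst := star' B m a b L
  have hzero : (∀ u ∈ UU B.i L, mulF (a (pL L)) (H75.cj u (b (qL L))) = 0) →
      X12 B m a b L = 0 := by
    intro h
    have h1 : (Nat.card (B.C (pL L)) : ℂ) * Nat.card (B.C (qL L)) * X12 B m a b L = 0 := by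
      rw [hst]
      refine Finset.sum_eq_zero fun u _ => ?_
      by_cases hu : u ∈ UU B.i L
      · rw [if_pos hu, h u hu]
        refine Finset.sum_eq_zero fun κ _ => ?_
        rw [Pi.zero_apply, zero_mul]
      · rw [if_neg hu]
    rcases mul_eq_zero.1 h1 with h2 | h2
    · exact absurd h2 (mul_ne_zero hn1 hn2)
    · exact h2
  refine ⟨fun hpq => hzero fun u hu => ?_, fun ha hb _ => ?_⟩
  · exfalso
    rcases hpq with ⟨hp, hq⟩ | ⟨hp, hq⟩
    · apply hq
      rw [eq_bot_iff]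
      intro v hv
      obtain ⟨w, hw, e⟩ := UU_fwd hu v hv
      rw [hp, Subgroup.mem_bot] at hw
      rw [hw, map_one, mul_inv_eq_one] at e
      have h3 : B.i v = B.i 1 := by
        rw [map_one]
        exact mul_eq_left.1 e
      rw [Subgroup.mem_bot]
      exact hB.inj h3
    · apply hp
      rw [eq_bot_iff]
      intro w hw
      obtain ⟨v, hv, e⟩ := UU_bwd hu w hw
      rw [hq, Subgroup.mem_bot] at hv
      rw [hv, map_one, mul_one, mul_inv_cancel] at e
      have h3 : B.i w = B.i 1 := by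
        rw [map_one]
        exact e.symm
      rw [Subgroup.mem_bot]
      exact hB.inj h3
  · rcases Set.eq_empty_or_nonempty (EL E₀ L) with hE | ⟨σ₀, hσ₀⟩
    · rw [hE, finsum_mem_empty, mul_zero]
      exact hzero fun u hu => term_empty' fud hM hF hB hu hE ha hb
    -- every term is equal to `X12`
    have hterm : ∀ σ ∈ EL E₀ L,
        HX B m (pL L) (fun g => mulF (a (pL L)) (ac B σ (b (qL L))) g) L = X12 B m a b L := by
      intro σ hσ
      obtain ⟨t, htT, ht⟩ := hB.sur σ hσ.1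
      have hac : ∀ x, ac B σ (b (qL L)) x = b (qL L) (t⁻¹ * x * t) :=
        ((acb ℓ M hM hℓ V₀ G E₀ hF B hB).2 (qL L) σ hσ.1).1 t htT ht (b (qL L)) hb.sup hb.cls
      have hcj : ∀ u ∈ UU B.i L, H75.cj u (b (qL L)) = ac B σ (b (qL L)) := by
        intro u hu
        have h1 : t⁻¹ * u ∈ B.C (qL L) := (UU_eq hσ ht).1 hu
        funext x
        rw [hac x]
        change b (qL L) (u⁻¹ * x * u) = _
        have h4 := hb.cls (t⁻¹ * u)⁻¹ ((B.C (qL L)).inv_mem h1) (t⁻¹ * x * t)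
        rw [← h4]
        congr 1
        group
      have hsup : ∀ g, g ∉ B.C (pL L) → mulF (a (pL L)) (ac B σ (b (qL L))) g = 0 := by
        refine mulF_supp (B.C (pL L)) ha.sup ?_
        intro x hx
        rw [hac x]
        apply hb.sup
        intro h
        apply hx
        have htU : t ∈ UU B.i L := (UU_eq hσ ht).2 (by rw [inv_mul_cancel]; exact Subgroup.one_mem _)
        exact (UU_C htU x).2 h
      have hcard : (Finset.univ.filter (· ∈ UU B.i L)).card = Nat.card (B.C (qL L)) := by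
        rw [← Fintype.card_subtype, ← Nat.card_eq_fintype_card]
        refine Nat.card_congr
          { toFun := fun u => ⟨t⁻¹ * u, (UU_eq hσ ht).1 u.2⟩
            invFun := fun x => ⟨t * x, (UU_eq hσ ht).2 (by rw [inv_mul_cancel_left]; exact x.2)⟩
            left_inv := fun u => Subtype.ext (mul_inv_cancel_left t u)
            right_inv := fun x => Subtype.ext (inv_mul_cancel_left t x) }
      have h1 : (Nat.card (B.C (pL L)) : ℂ) * Nat.card (B.C (qL L)) * X12 B m a b L =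
          (Nat.card (B.C (pL L)) : ℂ) * Nat.card (B.C (qL L)) *
          HX B m (pL L) (fun g => mulF (a (pL L)) (ac B σ (b (qL L))) g) L := by
        rw [hst, ← Finset.sum_filter]
        rw [Finset.sum_congr rfl fun u hu => by
          rw [hcj u (Finset.mem_filter.1 hu).2], Finset.sum_const, nsmul_eq_mul, hcard,
          ← hx_eq B m L hsup]
        ring
      exact (mul_left_cancel₀ (mul_ne_zero hn1 hn2) h1).symm
    have hfin : (EL E₀ L).Finite := by
      have hfm : Finite (MulAut V₀) := Finite.of_injective (fun σ : MulAut V₀ => (σ : V₀ → V₀))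
        DFunLike.coe_injective
      exact Set.toFinite _
    have hpos : (nS E₀ (pL L) : ℂ) ≠ 0 := by
      rw [← el_card hσ₀]
      have h2 : 0 < (EL E₀ L).ncard := (Set.ncard_pos hfin).2 ⟨σ₀, hσ₀⟩
      exact_mod_cast h2.ne'
    rw [finsum_mem_congr rfl hterm, finsum_mem_eq_finite_toFinset_sum _ hfin, Finset.sum_const,
      nsmul_eq_mul, ← Set.ncard_eq_toFinset_card _ hfin, el_card hσ₀,
      inv_mul_cancel_left₀ hpos]

end Pool.Agent.PP.SE.H98X
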