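import Pool.Agent.Helper98_ASE.AsmR
import Pool.Agent.Helper98_ASE.AsmW
import Pool.Agent.Helper49_ASD.CND
import Pool.Agent.Helper87_ASD.FUD
import Pool.Agent.Helper40_ASE.FBR
import Pool.Agent.Helper92_ASD.PSC
import Pool.Agent.Helper58_ASE.X3C
import Pool.Agent.Helper98_ASE.X2C
import Pool.Agent.Helper63_ASE.LMN
import Pool.Agent.Helper41_ASE.GDV
import Pool.Agent.Helper83_ASE.GCO
import Pool.Agent.Helper42_ASE.TGG

/-!
# Squad ASE: comparison of two data, the number of modular characters, closed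
-/

noncomputable section

namespace Pool.Agent.PP.SE

open Pool.Agent.PP Pool.Agent.PP.K9 Pool.Agent.PP.T3 Pool.Agent.PP.SO Pool.Agent.PP.SD

theorem fud_ : SD.FudStmt := SD.H87.fud
theorem cnd_ : SD.CndStmt :=
  SD.H49.cnd SO.prj_ dgd_ H43A.rda SO.homr_ SO.htz_ SO.hlnk_ T3.inr_ T3.smg_
theorem x3c_ : X3cStmt := H58.x3c czb_
theorem x2c_ : X2cStmt := H98X.x2c acb_ fud_
theorem x2r_ : X2rStmt := H47.x2r x2c_ fmb_ prb_ czb_
theorem psc_ : SD.PscStmt := SD.H92.psc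
theorem fbr_ : FbrStmt := H40.fbr psc_ fud_ H43A.cjd T3.smg_ K9.rot_
theorem sle_ : SleStmt := H65.sle fbr_ cxv_ acb_ prb_ mpb_
theorem x3r_ : X3rStmt := H81.x3r x3c_ sle_ cn3_ x3s_ fmb_ acb_ prb_ czb_
theorem hye_ : HyeStmt := H81.hye hyc_ sle_ czb_ acb_
theorem hyf_ : HyfStmt := H55.hyf hyc_ sle_ cn2_ x3s_ fmb_ acb_ czb_
theorem hkf_ : HkfStmt := H20.hkf hxy_ hyf_ hye_ prb_
theorem lmn_ : LmnStmt := H63.lmn cnd_
theorem wta_ : WtaStmt := H13.wta hye_ czb_ SO.pex_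
theorem fwa_ : FwaStmt := H18.fwa hxy_ hye_ SO.mbi_
theorem fwd_ : FwdStmt := H13.fwd fwa_ fwb_ brv_ wta_ fva_
theorem gdv_ : GdvStmt := H41.gdv gdh_ tya_ fva_
theorem dav_ : DavStmt := H94.dav gdv_ wta_ prb_
theorem ts1_ : Ts1Stmt := H59.ts1 lfm_ x3r_
theorem ts2_ : Ts2Stmt := H60.ts2 x2c_ xem_ fva_ SO.mbi_
theorem ts3_ : Ts3Stmt := H56.ts3 x2c_ x2r_ lfm_ fmb_ prb_ mpb_
theorem ts4_ : Ts4Stmt := H60.ts4 hxy_ hkf_ SO.m12_ prb_ SO.mbi_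
theorem ts5_ : Ts5Stmt :=
  H30.ts5 lt2_ lmn_ let_ ts1_ ts2_ ts3_ ts4_ xem_ etv_ fva_ ft3_ prb_ czb_

/-- the relation -/
theorem fie_ : FieStmt := H71.fie ts5_ fwd_ dav_ dvs_ wta_ prb_

theorem gco_ : GcoStmt := H83.gco gid_ gsc_ gdi_ SO.lhf_ SO.lia_
theorem ke2_ : Ke2Stmt := H17.ke2 SO.rsl_ prb_ ke1_
theorem kre_ : KreStmt := H46.kre ke2_ klp_ gco_ prb_ mpb_
theorem cpx_ : CpxStmt := H81.cpx rte_ fie_ ppc_

/-- comparison of two data -/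
theorem cme_ : CmeStmt := H13.cme cpx_ hex_ mqc_ mqa_ mqb_ hmx_ kre_

theorem tgg_ : TggStmt := H42.tgg H43A.cen H43A.bre

/-- the number of modular characters modulo `ℓ ^ 2` -/
theorem kae_ : KaeStmt := H43A.kae' tgg_ rsx_ cme_

/-- the theorem for block idempotents -/
theorem s2f_ : S2fStmt := H43A.s2f' tgg_ rsx_ cme_

end Pool.Agent.PP.SE
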