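import Pool.Agent.Helper98_ASE.AsmS
import Pool.Agent.Helper86_ASE.RFK
import Pool.Agent.Helper41_ASE.RFP
import Pool.Agent.Helper20_ASE.RNB
import Pool.Agent.Helper45_ASE.RSX

/-!
# Squad ASE: existence of the local data, closed
-/

noncomputable section

namespace Pool.Agent.PP.SE

open Pool.Agent.PP Pool.Agent.PP.K9 Pool.Agent.PP.T3 Pool.Agent.PP.SO Pool.Agent.PP.SD

theorem rfk_ : RfkStmt := H86.rfk gea_ vxm_ snu_ val_ rfj_ acb_
theorem rfp_ : RfpStmt := H41.rfp rfm_ acb_ czb_ gec_ vxm_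
theorem rnb_ : RnbStmt := H20.rnb H43A.nsd dgd_

/-- existence of the local data -/
theorem rsx_ : RsxStmt := H45.rsx cyw_ rfa_ rfb_ rfc_ rfd_ rfe_ rff_ rfg_ rfh_ rfi_ rfj_ rfk_ rfl_
  rfm_ rfn_ rfp_ rna_ rnb_ rnc_ prb_ mpb_ val_ acb_ gea_ vxm_

end Pool.Agent.PP.SE
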