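import Pool.Agent.Helper43_ASE.AsmC
import Pool.Agent.Helper11_ZAS.AsmZ
import Pool.Agent.Helper25_K9.GRB
import Pool.Agent.Helper64_ASD.RWD
import Pool.Agent.Helper86_ASD.DGD
import Pool.Agent.Helper96_ASE.GEA
import Pool.Agent.Helper82_ASE.GEB
import Pool.Agent.Helper41_ASE.GEC
import Pool.Agent.Helper66_ASE.VXM
import Pool.Agent.Helper49_ASE.VXO
import Pool.Agent.Helper49_ASE.VXG
import Pool.Agent.Helper76_ASE.IBV
import Pool.Agent.Helper69_ASE.LNC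
import Pool.Agent.Helper86_ASE.CNT
import Pool.Agent.Helper41_ASE.STR
import Pool.Agent.Helper52_ASE.XIR
import Pool.Agent.Helper95_ASE.RPS
import Pool.Agent.Helper86_ASE.RPV
import Pool.Agent.Helper24_ASE.DCR
import Pool.Agent.Helper72_ASE.MAT
import Pool.Agent.Helper31_ASE.CYW
import Pool.Agent.Helper33_ASE.SNU
import Pool.Agent.Helper77_ASE.VAL
import Pool.Agent.Helper65_ASE.RFA
import Pool.Agent.Helper16_ASE.RFB
import Pool.Agent.Helper95_ASE.RFC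
import Pool.Agent.Helper44_ASE.RFD
import Pool.Agent.Helper86_ASE.RFE
import Pool.Agent.Helper27_ASE.RFF
import Pool.Agent.Helper13_ASE.RFG
import Pool.Agent.Helper38_ASE.RFH
import Pool.Agent.Helper44_ASE.RFI
import Pool.Agent.Helper65_ASE.RFJ
import Pool.Agent.Helper46_ASE.RFL
import Pool.Agent.Helper32_ASE.RFM
import Pool.Agent.Helper38_ASE.RFN
import Pool.Agent.Helper67_ASE.RNA
import Pool.Agent.Helper3_ASE.RNC

/-!
# Squad ASE: the statements of block S, closed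
-/

noncomputable section

namespace Pool.Agent.PP.SE

open Pool.Agent.PP Pool.Agent.PP.K9 Pool.Agent.PP.T3 Pool.Agent.PP.SO Pool.Agent.PP.SD

theorem prb_ : PrbStmt := H43A.prb
theorem mpb_ : MpbStmt := H43A.mpb
theorem czb_ : CzbStmt := H43A.czb
theorem acb_ : AcbStmt := H43A.acb
theorem lme_ : LmeStmt := H43A.lme
theorem rwd_ : SD.RwdStmt := SD.H64.rwd
theorem dgd_ : SD.DgdStmt := SD.H86.dgd SO.hta_

theorem gea_ : GeaStmt := H96.gea
theorem geb_ : GebStmt := H82.geb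
theorem gec_ : GecStmt := H41.gec gea_
theorem vxm_ : VxmStmt := H66.vxm gea_ czb_ acb_ H43A.nsd H43A.rda rwd_ SO.homr_
theorem vxo_ : VxoStmt :=
  H49.vxo gea_ vxm_ H43A.rda SO.hlnk_ T3.smg_ T3.co1_ T3.co2_ T3.fus_ K9.wbo_ H43A.nsd
theorem vxg_ : VxgStmt := H49.vxg T6.sec_ H43A.rda SO.hlnk_ H43A.nsd
theorem ibv_ : IbvStmt := H76.ibv gea_ gec_ vxm_ vxo_
theorem lnc_ : LncStmt := H69.lnc lme_
theorem cnt_ : CntStmt := H86.cnt gea_ lnc_ H43A.rda H43A.kld H43A.lnh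
theorem str_ : StrStmt := H41.str gec_ vxm_ ibv_ cnt_ K9.H25.grb
theorem xir_ : XirStmt := H52.xir gec_ vxo_
theorem rps_ : RpsStmt := H95.rps T6.sec_ T6.ips_ K9.wbo_ H43A.rda H43A.lbd H43A.nsd
theorem rpv_ : RpvStmt := H86.rpv gea_ gec_ rps_ vxm_
theorem dcr_ : DcrStmt := H24.dcr K9.H27.prt K9.ada_ K9.rot_
theorem mat_ : MatStmt := H72.mat str_ xir_ rpv_ dcr_ vxm_
theorem cyw_ : CywStmt := H31W.cyw gea_ gec_ vxm_ str_ xir_ rpv_ mat_
theorem snu_ : SnuStmt := H33.snu gec_ vxm_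
theorem val_ : ValStmt := H77.val gea_ gec_ vxm_ czb_
theorem rfa_ : RfaStmt := H65.rfa gea_ gec_ vxm_ czb_
theorem rfb_ : RfbStmt := H16.rfb snu_ gec_ gea_
theorem rfc_ : RfcStmt := H95.rfc val_ vxm_ gea_ gec_
theorem rfd_ : RfdStmt := H44.rfd snu_ gec_ gea_
theorem rfe_ : RfeStmt := H86.rfe gea_ vxm_ snu_ val_
theorem rff_ : RffStmt := H27.rff snu_ val_ acb_ gea_
theorem rfg_ : RfgStmt := H13.rfg snu_ val_ vxg_ rfa_ vxm_ czb_ gea_
theorem rfh_ : RfhStmt := H38.rfh val_ dgd_ vxm_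
theorem rfi_ : RfiStmt := H44.rfi val_ rfg_ rfh_ SO.prj_
theorem rfj_ : RfjStmt := H65.rfj val_ snu_ gea_ czb_ vxm_
theorem rfl_ : RflStmt := H46.rfl_row geb_ acb_ H43A.cjd
theorem rfm_ : RfmStmt := H32.rfm geb_ gec_ vxm_ rfl_
theorem rfn_ : RfnStmt := H38.rfn rfl_ rfm_ val_ geb_ acb_
theorem rna_ : RnaStmt := H67.rna H43A.nsd czb_
theorem rnc_ : RncStmt := H3.rnc H43A.cjd rwd_

end Pool.Agent.PP.SE
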